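import Pool.Agent.H40.Dol.HS

/-!
Module M4: existence of a good configuration, from the targets M2 (lemmaO) and M3 (tshape).
-/

namespace H78Dol

open H40Dol Pointwise

/-- The statement of M2. -/
def T_lemmaO : Prop := ∀ (α β a b : ℝ), 0 < α → 0 < β → α + β ≤ 1 → a + b = α + β →
    α * β ≤ a → α * β ≤ b →
    ∃ o1 o2 o3 : ℝ, 0 < o1 ∧ 0 < o2 ∧ 0 < o3 ∧ o1 + o2 + o3 = 1 ∧
      (∀ X Y s : ℝ, 1 < X → 1 < Y → 0 < s → s < 1 → o2 * X + o3 * Y = 1 →
        s < (2 * s - 1) * X → s < (2 * s - 1) * Y →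
        ¬ (s < β * Y - a * (Y - X) ∧ s < β * X + b * (Y - X))) ∧
      (∀ X Y s : ℝ, 1 < X → 1 < Y → 0 < s → s < 1 → o3 * X + o1 * Y = 1 →
        s < (2 * s - 1) * X → s < (2 * s - 1) * Y →
        ¬ (s < α * X ∧ s < (a - β) * X + β * Y)) ∧
      (∀ X Y s : ℝ, 1 < X → 1 < Y → 0 < s → s < 1 → o2 * X + o1 * Y = 1 →
        s < (2 * s - 1) * X → s < (2 * s - 1) * Y →
        ¬ (s < α * X ∧ s < (b - β) * X + β * Y))

/-- The statement of M3. -/
def T_tshape : Prop := ∀ (K : Set (ℝ × ℝ)), IsCompact K → StrictConvex ℝ K →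
    (interior K).Nonempty →
    ∃ e w x0 y0 x1 y1 x2 y2 : ℝ × ℝ, ∃ α : ℝ,
      x0 ∈ K ∧ y0 ∈ K ∧ x1 ∈ K ∧ y1 ∈ K ∧ x2 ∈ K ∧ y2 ∈ K ∧
      x0 - y0 = e ∧ x1 - y1 = w ∧ x2 - y2 = w - e ∧
      e ∈ frontier (K - K) ∧ w ∈ frontier (K - K) ∧ w - e ∈ frontier (K - K) ∧
      0 < dt e w ∧ y2 - y1 = α • e

/-- The inequalities between the parameters. -/
theorem params (α β a x1 x2 : ℝ) (hx1 : 0 < x1) (hx1' : x1 < 1) (hx2 : 0 < x2) (hx2' : x2 < 1)
    (_h1 : -(1 - x2) ≤ -(α * (1 - x2))) (_h1' : -(α * (1 - x2)) ≤ 0)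
    (h2 : -x1 ≤ (a - α) - β * x1) (h2' : (a - α) - β * x1 ≤ 0)
    (h3 : -(1 - x1) ≤ -a + β * x1) (h3' : -a + β * x1 ≤ 0)
    (h4 : -x2 ≤ a * (1 - x2) - β) (h4' : a * (1 - x2) - β ≤ 0) :
    0 ≤ α ∧ α ≤ 1 ∧ 0 ≤ β ∧ β ≤ 1 ∧ α * β ≤ a ∧ α * β ≤ α + β - a ∧ (β = 0 → a = 0) := by
  have hα0 : 0 ≤ α := by
    by_contra h
    push Not at h
    nlinarith
  have hα1 : α ≤ 1 := by
    by_contra h
    push Not at h
    nlinarith
  have hβ0 : 0 ≤ β := by
    by_contra h
    push Not at h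
    have e1 : β * x1 ≤ a := by linarith
    have e2 : β < β * x1 := by nlinarith
    have e3 : β < a := by linarith
    have e4 : a * (1 - x2) ≤ β := by linarith
    nlinarith
  have hβ1 : β ≤ 1 := by
    by_contra h
    push Not at h
    have e1 : a ≤ (1 - x1) + β * x1 := by linarith
    have e2 : (1 - x1) + β * x1 < β := by nlinarith
    have e4 : β - x2 ≤ a * (1 - x2) := by linarith
    have e5 : a * (1 - x2) < β * (1 - x2) := by
      apply mul_lt_mul_of_pos_right (by linarith) (by linarith)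
    nlinarith
  refine ⟨hα0, hα1, hβ0, hβ1, ?_, ?_, ?_⟩
  · have e1 : (1 - β) * (β * x1) ≤ (1 - β) * a := by
      apply mul_le_mul_of_nonneg_left (by linarith) (by linarith)
    have e2 : β * (α - (1 - β) * x1) ≤ β * a := by
      apply mul_le_mul_of_nonneg_left (by linarith) hβ0
    nlinarith
  · have e1 : (1 - β) * (β * (1 - x1)) ≤ (1 - β) * (α + β - a) := by
      apply mul_le_mul_of_nonneg_left (by linarith) (by linarith)
    have e2 : β * (α - (1 - β) * (1 - x1)) ≤ β * (α + β - a) := by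
      apply mul_le_mul_of_nonneg_left (by linarith) hβ0
    nlinarith
  · intro hb
    subst hb
    have e1 : 0 ≤ a := by linarith
    have e2 : a * (1 - x2) ≤ 0 := by linarith
    have e3 : a ≤ 0 := by
      by_contra h
      push Not at h
      have : 0 < a * (1 - x2) := mul_pos h (by linarith)
      linarith
    linarith

/-- A supporting functional. -/
theorem support (D : Set (ℝ × ℝ)) (hc : Convex ℝ D) (hint : (0 : ℝ × ℝ) ∈ interior D)
    (e : ℝ × ℝ) (he : e ∈ frontier D) :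
    ∃ φ : ℝ × ℝ, pr φ e = 1 ∧ ∀ p ∈ D, pr φ p ≤ 1 := by
  have hne : e ∉ interior D := fun h => he.2 h
  obtain ⟨f, hf⟩ := geometric_hahn_banach_open_point hc.interior isOpen_interior hne
  have h0 : 0 < f e := by
    have := hf 0 hint
    simpa using this
  have hrep : ∀ p : ℝ × ℝ, f p = pr (f (1, 0), f (0, 1)) p := by
    intro p
    have : p = p.1 • ((1 : ℝ), (0 : ℝ)) + p.2 • ((0 : ℝ), (1 : ℝ)) := by
      ext <;> simp
    calc f p = f (p.1 • ((1 : ℝ), (0 : ℝ)) + p.2 • ((0 : ℝ), (1 : ℝ))) := by rw [← this]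
      _ = p.1 * f (1, 0) + p.2 * f (0, 1) := by
          rw [map_add, map_smul, map_smul]; simp
      _ = _ := by simp only [pr]; ring
  have hle : ∀ p ∈ D, f p ≤ f e := by
    intro p hp
    have hcl : p ∈ closure (interior D) := by
      have : closure (interior D) = closure D :=
        hc.closure_interior_eq_closure_of_nonempty_interior ⟨0, hint⟩
      rw [this]
      exact subset_closure hp
    have : closure (interior D) ⊆ {x | f x ≤ f e} := by
      apply closure_minimal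
      · intro x hx
        exact (hf x hx).le
      · exact isClosed_le f.continuous continuous_const
    exact this hcl
  refine ⟨(f e)⁻¹ • (f (1, 0), f (0, 1)), ?_, ?_⟩
  · rw [pr_smul_left, ← hrep]
    field_simp
  · intro p hp
    rw [pr_smul_left, ← hrep]
    rw [inv_mul_le_iff₀ h0]
    linarith [hle p hp]

theorem strict_phi (D : Set (ℝ × ℝ)) (hD : StrictConvex ℝ D) (φ : ℝ × ℝ)
    (hle : ∀ p ∈ D, pr φ p ≤ 1) (p q : ℝ × ℝ) (hp : p ∈ D) (hq : q ∈ D) (h1 : pr φ p = 1)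
    (hpq : p ≠ q) : pr φ q < 1 := by
  by_contra h
  have h2 : pr φ q = 1 := le_antisymm (hle q hq) (not_lt.mp h)
  have hm : (1 / 2 : ℝ) • p + (1 / 2 : ℝ) • q ∈ interior D :=
    hD hp hq hpq (by norm_num) (by norm_num) (by norm_num)
  set m := (1 / 2 : ℝ) • p + (1 / 2 : ℝ) • q with hmdef
  have h3 : pr φ m = 1 := by
    rw [hmdef, pr_add_right, pr_smul_right, pr_smul_right, h1, h2]; norm_num
  have hc : Continuous (fun t : ℝ => t • m) := by fun_prop
  have hev : ∀ᶠ t in nhds (1 : ℝ), t • m ∈ D := by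
    apply hc.continuousAt.eventually_mem
    simpa using mem_interior_iff_mem_nhds.mp hm
  obtain ⟨t, ht1, ht2⟩ : ∃ t : ℝ, t • m ∈ D ∧ 1 < t := by
    have h4 : ∀ᶠ t in nhdsWithin (1 : ℝ) (Set.Ioi 1), t • m ∈ D :=
      hev.filter_mono nhdsWithin_le_nhds
    have h5 : ∀ᶠ t in nhdsWithin (1 : ℝ) (Set.Ioi 1), (1 : ℝ) < t :=
      eventually_mem_nhdsWithin
    exact (h4.and h5).exists
  have := hle _ ht1
  rw [pr_smul_right, h3] at this
  linarith

theorem uniq (K : Set (ℝ × ℝ)) (hK : StrictConvex ℝ K) (x y x' y' : ℝ × ℝ) (hx : x ∈ K)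
    (hy : y ∈ K) (hx' : x' ∈ K) (hy' : y' ∈ K) (h : x - y = x' - y')
    (he : x - y ∈ frontier (K - K)) : x = x' := by
  by_contra hne
  have hm : (1 / 2 : ℝ) • x + (1 / 2 : ℝ) • x' ∈ interior K :=
    hK hx hx' hne (by norm_num) (by norm_num) (by norm_num)
  have hn : (1 / 2 : ℝ) • y + (1 / 2 : ℝ) • y' ∈ K :=
    hK.convex hy hy' (by norm_num) (by norm_num) (by norm_num)
  set m := (1 / 2 : ℝ) • x + (1 / 2 : ℝ) • x' with hmdef
  set n := (1 / 2 : ℝ) • y + (1 / 2 : ℝ) • y' with hndef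
  have hmn : m - n = x - y := by
    have : m - n = (1 / 2 : ℝ) • (x - y) + (1 / 2 : ℝ) • (x' - y') := by
      rw [hmdef, hndef]; module
    rw [this, ← h]; module
  have hsub : interior K - {n} ⊆ interior (K - K) := by
    apply interior_maximal
    · rintro z ⟨k, hk, n', hn', rfl⟩
      rw [Set.mem_singleton_iff] at hn'
      subst hn'
      exact Set.sub_mem_sub (interior_subset hk) hn
    · exact isOpen_interior.sub_right
  have : x - y ∈ interior (K - K) := by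
    rw [← hmn]
    exact hsub (Set.sub_mem_sub hm rfl)
  exact he.2 this

theorem frontier_neg_mem (K : Set (ℝ × ℝ)) (e : ℝ × ℝ) (he : e ∈ frontier (K - K)) :
    -e ∈ frontier (K - K) := by
  have h1 : (Homeomorph.neg (ℝ × ℝ)) ⁻¹' (K - K) = K - K := by
    ext z
    constructor
    · rintro ⟨x, hx, y, hy, h⟩
      refine ⟨y, hy, x, hx, ?_⟩
      have h' : x - y = -z := h
      show y - x = z
      rw [← neg_sub, h', neg_neg]
    · rintro ⟨x, hx, y, hy, h⟩
      refine ⟨y, hy, x, hx, ?_⟩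
      have h' : x - y = z := h
      show y - x = -z
      rw [← neg_sub, h']
  have h2 := (Homeomorph.neg (ℝ × ℝ)).preimage_frontier (K - K)
  rw [h1] at h2
  have : e ∈ (Homeomorph.neg (ℝ × ℝ)) ⁻¹' frontier (K - K) := by
    rw [h2]; exact he
  exact this

theorem cl1 (α β a b o1 o2 o3 : ℝ) (hab : a + b = α + β) (ho1 : 0 < o1) (ho2 : 0 < o2)
    (ho3 : 0 < o3) (hsum : o1 + o2 + o3 = 1)
    (hO : ∀ X Y s : ℝ, 1 < X → 1 < Y → 0 < s → s < 1 → o2 * X + o3 * Y = 1 →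
        s < (2 * s - 1) * X → s < (2 * s - 1) * Y →
        ¬ (s < β * Y - a * (Y - X) ∧ s < β * X + b * (Y - X)))
    (c1 c2 c3 s H : ℝ) (hc : o1 * c1 + o2 * c2 + o3 * c3 = 0) (hc2 : c2 < 0) (hc3 : c3 < 0)
    (hs0 : 0 < s) (hs1 : s < 1)
    (hH1 : c1 + ((a - α) * (c2 - c3) + β * (c3 - c1)) ≤ H)
    (hH2 : c1 - (-(a * (c2 - c3)) - β * (c3 - c1)) ≤ H)
    (g1 : H < (1 - s) * c1) (g2 : (1 - s) * c1 < (2 * s - 1) * (-c2))
    (g3 : (1 - s) * c1 < (2 * s - 1) * (-c3)) : False := by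
  have h1 : 0 < o1 * c1 := by nlinarith [mul_neg_of_pos_of_neg ho2 hc2, mul_neg_of_pos_of_neg ho3 hc3]
  have hc1 : 0 < c1 := (mul_pos_iff_of_pos_left ho1).mp h1
  have hX : c2 = c1 * (1 - (1 - c2 / c1)) := by field_simp; ring
  have hY : c3 = c1 * (1 - (1 - c3 / c1)) := by field_simp; ring
  have hX1 : 1 < 1 - c2 / c1 := by linarith [div_neg_of_neg_of_pos hc2 hc1]
  have hY1 : 1 < 1 - c3 / c1 := by linarith [div_neg_of_neg_of_pos hc3 hc1]
  have hXY : o2 * (1 - c2 / c1) + o3 * (1 - c3 / c1) = 1 := by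
    field_simp
    linear_combination (-1 : ℝ) * hc + c1 * hsum
  generalize 1 - c2 / c1 = X at *
  generalize 1 - c3 / c1 = Y at *
  subst hX hY
  refine hO X Y s hX1 hY1 hs0 hs1 hXY ?_ ?_ ⟨?_, ?_⟩
  · have : 0 < c1 * ((2 * s - 1) * X - s) := by linarith
    linarith [(mul_pos_iff_of_pos_left hc1).mp this]
  · have : 0 < c1 * ((2 * s - 1) * Y - s) := by linarith
    linarith [(mul_pos_iff_of_pos_left hc1).mp this]
  · have : 0 < c1 * (β * Y - a * (Y - X) - s) := by linarith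
    linarith [(mul_pos_iff_of_pos_left hc1).mp this]
  · have hb : b = α + β - a := by linarith
    subst hb
    have : 0 < c1 * (β * X + (α + β - a) * (Y - X) - s) := by linarith
    linarith [(mul_pos_iff_of_pos_left hc1).mp this]

theorem cl2 (α β a o1 o2 o3 : ℝ) (ho1 : 0 < o1) (ho2 : 0 < o2)
    (ho3 : 0 < o3) (hsum : o1 + o2 + o3 = 1)
    (hO : ∀ X Y s : ℝ, 1 < X → 1 < Y → 0 < s → s < 1 → o3 * X + o1 * Y = 1 →
        s < (2 * s - 1) * X → s < (2 * s - 1) * Y →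
        ¬ (s < α * X ∧ s < (a - β) * X + β * Y))
    (c1 c2 c3 s H : ℝ) (hc : o1 * c1 + o2 * c2 + o3 * c3 = 0) (hc1 : c1 < 0) (hc3 : c3 < 0)
    (hs0 : 0 < s) (hs1 : s < 1)
    (hH1 : c2 + (-(a * (c2 - c3)) - β * (c3 - c1)) ≤ H)
    (hH2 : c2 - α * (c2 - c3) ≤ H)
    (g1 : H < (1 - s) * c2) (g2 : (1 - s) * c2 < (2 * s - 1) * (-c3))
    (g3 : (1 - s) * c2 < (2 * s - 1) * (-c1)) : False := by
  have h1 : 0 < o2 * c2 := by nlinarith [mul_neg_of_pos_of_neg ho1 hc1, mul_neg_of_pos_of_neg ho3 hc3]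
  have hc2 : 0 < c2 := (mul_pos_iff_of_pos_left ho2).mp h1
  have hX : c3 = c2 * (1 - (1 - c3 / c2)) := by field_simp; ring
  have hY : c1 = c2 * (1 - (1 - c1 / c2)) := by field_simp; ring
  have hX1 : 1 < 1 - c3 / c2 := by linarith [div_neg_of_neg_of_pos hc3 hc2]
  have hY1 : 1 < 1 - c1 / c2 := by linarith [div_neg_of_neg_of_pos hc1 hc2]
  have hXY : o3 * (1 - c3 / c2) + o1 * (1 - c1 / c2) = 1 := by
    field_simp
    linear_combination (-1 : ℝ) * hc + c2 * hsum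
  generalize 1 - c3 / c2 = X at *
  generalize 1 - c1 / c2 = Y at *
  subst hX hY
  refine hO X Y s hX1 hY1 hs0 hs1 hXY ?_ ?_ ⟨?_, ?_⟩
  · have : 0 < c2 * ((2 * s - 1) * X - s) := by linarith
    linarith [(mul_pos_iff_of_pos_left hc2).mp this]
  · have : 0 < c2 * ((2 * s - 1) * Y - s) := by linarith
    linarith [(mul_pos_iff_of_pos_left hc2).mp this]
  · have : 0 < c2 * (α * X - s) := by linarith
    linarith [(mul_pos_iff_of_pos_left hc2).mp this]
  · have : 0 < c2 * ((a - β) * X + β * Y - s) := by linarith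
    linarith [(mul_pos_iff_of_pos_left hc2).mp this]

theorem cl3 (α β a b o1 o2 o3 : ℝ) (hab : a + b = α + β) (ho1 : 0 < o1) (ho2 : 0 < o2)
    (ho3 : 0 < o3) (hsum : o1 + o2 + o3 = 1)
    (hO : ∀ X Y s : ℝ, 1 < X → 1 < Y → 0 < s → s < 1 → o2 * X + o1 * Y = 1 →
        s < (2 * s - 1) * X → s < (2 * s - 1) * Y →
        ¬ (s < α * X ∧ s < (b - β) * X + β * Y))
    (c1 c2 c3 s H : ℝ) (hc : o1 * c1 + o2 * c2 + o3 * c3 = 0) (hc1 : c1 < 0) (hc2 : c2 < 0)
    (hs0 : 0 < s) (hs1 : s < 1)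
    (hH1 : c3 + α * (c2 - c3) ≤ H)
    (hH2 : c3 - ((a - α) * (c2 - c3) + β * (c3 - c1)) ≤ H)
    (g1 : H < (1 - s) * c3) (g2 : (1 - s) * c3 < (2 * s - 1) * (-c1))
    (g3 : (1 - s) * c3 < (2 * s - 1) * (-c2)) : False := by
  have h1 : 0 < o3 * c3 := by nlinarith [mul_neg_of_pos_of_neg ho1 hc1, mul_neg_of_pos_of_neg ho2 hc2]
  have hc3 : 0 < c3 := (mul_pos_iff_of_pos_left ho3).mp h1
  have hX : c2 = c3 * (1 - (1 - c2 / c3)) := by field_simp; ring
  have hY : c1 = c3 * (1 - (1 - c1 / c3)) := by field_simp; ring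
  have hX1 : 1 < 1 - c2 / c3 := by linarith [div_neg_of_neg_of_pos hc2 hc3]
  have hY1 : 1 < 1 - c1 / c3 := by linarith [div_neg_of_neg_of_pos hc1 hc3]
  have hXY : o2 * (1 - c2 / c3) + o1 * (1 - c1 / c3) = 1 := by
    field_simp
    linear_combination (-1 : ℝ) * hc + c3 * hsum
  generalize 1 - c2 / c3 = X at *
  generalize 1 - c1 / c3 = Y at *
  subst hX hY
  refine hO X Y s hX1 hY1 hs0 hs1 hXY ?_ ?_ ⟨?_, ?_⟩
  · have : 0 < c3 * ((2 * s - 1) * X - s) := by linarith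
    linarith [(mul_pos_iff_of_pos_left hc3).mp this]
  · have : 0 < c3 * ((2 * s - 1) * Y - s) := by linarith
    linarith [(mul_pos_iff_of_pos_left hc3).mp this]
  · have : 0 < c3 * (α * X - s) := by linarith
    linarith [(mul_pos_iff_of_pos_left hc3).mp this]
  · have hb : b = α + β - a := by linarith
    subst hb
    have : 0 < c3 * (((α + β - a) - β) * X + β * Y - s) := by linarith
    linarith [(mul_pos_iff_of_pos_left hc3).mp this]

theorem hs_one (K : Set (ℝ × ℝ)) (hne : K.Nonempty) (hK : IsCompact K) (φ e x y : ℝ × ℝ)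
    (hx : x ∈ K) (hy : y ∈ K) (hxy : x - y = e) (h1 : pr φ e = 1)
    (hle : ∀ p ∈ K - K, pr φ p ≤ 1) : hs K φ + hs K (-φ) = 1 := by
  obtain ⟨f1, f2, -, -, -⟩ := hs_facts K hne hK
  apply le_antisymm
  · obtain ⟨p, hp, hp'⟩ := f2 φ
    obtain ⟨q, hq, hq'⟩ := f2 (-φ)
    rw [hp', hq', pr_neg_left]
    have := hle (p - q) (Set.sub_mem_sub hp hq)
    rw [pr_sub_right] at this
    linarith
  · have h2 := f1 φ x hx
    have h3 := f1 (-φ) y hy
    rw [pr_neg_left] at h3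
    rw [← hxy, pr_sub_right] at h1
    linarith

/-- Assembling a configuration. -/
theorem mkcfg (K : Set (ℝ × ℝ)) (hne : K.Nonempty) (hK : IsCompact K)
    (U1 U2 U3 t1 t2 t3 φ1 φ2 φ3 : ℝ × ℝ)
    (m12 : U2 - t1 ∈ K) (m13 : U3 - t1 ∈ K) (m21 : U1 - t2 ∈ K) (m23 : U3 - t2 ∈ K)
    (m31 : U1 - t3 ∈ K) (m32 : U2 - t3 ∈ K) (hdet : 0 < dt (U2 - U1) (U3 - U1))
    (n1 : pr φ1 (U2 - U3) = 1) (n2 : pr φ2 (U3 - U1) = 1) (n3 : pr φ3 (U1 - U2) = 1)
    (l1 : ∀ p ∈ K - K, pr φ1 p ≤ 1) (l2 : ∀ p ∈ K - K, pr φ2 p ≤ 1)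
    (l3 : ∀ p ∈ K - K, pr φ3 p ≤ 1)
    (z12 : pr φ1 (U3 - U1) < 0) (z13 : pr φ1 (U1 - U2) < 0)
    (z21 : pr φ2 (U2 - U3) < 0) (z23 : pr φ2 (U1 - U2) < 0)
    (z31 : pr φ3 (U2 - U3) < 0) (z32 : pr φ3 (U3 - U1) < 0)
    (o1 o2 o3 : ℝ) (ho1 : 0 < o1) (ho2 : 0 < o2) (ho3 : 0 < o3) (hsum : o1 + o2 + o3 = 1)
    (k1 : ∀ c : ℝ × ℝ, ∀ c1 c2 c3 s : ℝ, o1 * c1 + o2 * c2 + o3 * c3 = 0 → c1 - c2 = pr c (U1 - U2) →
      c2 - c3 = pr c (U2 - U3) → 0 < s → s < 1 → c2 < 0 → c3 < 0 →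
      hs K c + pr c t1 - pr c U1 + c1 < (1 - s) * c1 → (1 - s) * c1 < (2 * s - 1) * (-c2) →
      (1 - s) * c1 < (2 * s - 1) * (-c3) → False)
    (k2 : ∀ c : ℝ × ℝ, ∀ c1 c2 c3 s : ℝ, o1 * c1 + o2 * c2 + o3 * c3 = 0 → c1 - c2 = pr c (U1 - U2) →
      c2 - c3 = pr c (U2 - U3) → 0 < s → s < 1 → c3 < 0 → c1 < 0 →
      hs K c + pr c t2 - pr c U2 + c2 < (1 - s) * c2 → (1 - s) * c2 < (2 * s - 1) * (-c3) →
      (1 - s) * c2 < (2 * s - 1) * (-c1) → False)
    (k3 : ∀ c : ℝ × ℝ, ∀ c1 c2 c3 s : ℝ, o1 * c1 + o2 * c2 + o3 * c3 = 0 → c1 - c2 = pr c (U1 - U2) →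
      c2 - c3 = pr c (U2 - U3) → 0 < s → s < 1 → c1 < 0 → c2 < 0 →
      hs K c + pr c t3 - pr c U3 + c3 < (1 - s) * c3 → (1 - s) * c3 < (2 * s - 1) * (-c1) →
      (1 - s) * c3 < (2 * s - 1) * (-c2) → False) : Nonempty (Config K) := by
  set o : ℝ × ℝ := o1 • U1 + o2 • U2 + o3 • U3 with ho
  have hcomb : o1 • (U1 - o) + o2 • (U2 - o) + o3 • (U3 - o) = 0 := by
    have h1 : o1 • (U1 - o) + o2 • (U2 - o) + o3 • (U3 - o) =
        (o1 • U1 + o2 • U2 + o3 • U3) - (o1 + o2 + o3) • o := by module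
    rw [h1, hsum, one_smul, ← ho, sub_self]
  have hd1 : dt (U2 - o) (U3 - o) = o1 * dt (U2 - U1) (U3 - U1) := by
    have : o1 = 1 - o2 - o3 := by linarith
    rw [ho, this]
    simp only [dt, Prod.fst_sub, Prod.snd_sub, Prod.fst_add, Prod.snd_add, Prod.smul_fst,
      Prod.smul_snd, smul_eq_mul]
    ring
  have hd2 : dt (U3 - o) (U1 - o) = o2 * dt (U2 - U1) (U3 - U1) := by
    have : o2 = 1 - o1 - o3 := by linarith
    rw [ho, this]
    simp only [dt, Prod.fst_sub, Prod.snd_sub, Prod.fst_add, Prod.snd_add, Prod.smul_fst,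
      Prod.smul_snd, smul_eq_mul]
    ring
  have hd3 : dt (U1 - o) (U2 - o) = o3 * dt (U2 - U1) (U3 - U1) := by
    have : o3 = 1 - o1 - o2 := by linarith
    rw [ho, this]
    simp only [dt, Prod.fst_sub, Prod.snd_sub, Prod.fst_add, Prod.snd_add, Prod.smul_fst,
      Prod.smul_snd, smul_eq_mul]
    ring
  have hlin : ∀ c, o1 * pr c (U1 - o) + o2 * pr c (U2 - o) + o3 * pr c (U3 - o) = 0 := by
    intro c
    have h1 := congrArg (pr c) hcomb
    rwa [pr_add_right, pr_add_right, pr_smul_right, pr_smul_right, pr_smul_right,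
      pr_zero_right] at h1
  have s1 : (U2 - o) - (U3 - o) = U2 - U3 := by abel
  have s2 : (U3 - o) - (U1 - o) = U3 - U1 := by abel
  have s3 : (U1 - o) - (U2 - o) = U1 - U2 := by abel
  have r12 : (U2 - o) - (t1 - o) = U2 - t1 := by abel
  have r13 : (U3 - o) - (t1 - o) = U3 - t1 := by abel
  have r21 : (U1 - o) - (t2 - o) = U1 - t2 := by abel
  have r23 : (U3 - o) - (t2 - o) = U3 - t2 := by abel
  have r31 : (U1 - o) - (t3 - o) = U1 - t3 := by abel
  have r32 : (U2 - o) - (t3 - o) = U2 - t3 := by abel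
  have w1 : hs K φ1 + hs K (-φ1) = 1 :=
    hs_one K hne hK φ1 (U2 - U3) (U2 - t1) (U3 - t1) m12 m13 (by abel) n1 l1
  have w2 : hs K φ2 + hs K (-φ2) = 1 :=
    hs_one K hne hK φ2 (U3 - U1) (U3 - t2) (U1 - t2) m23 m21 (by abel) n2 l2
  have w3 : hs K φ3 + hs K (-φ3) = 1 :=
    hs_one K hne hK φ3 (U1 - U2) (U1 - t3) (U2 - t3) m31 m32 (by abel) n3 l3
  refine ⟨{ u := ![U1 - o, U2 - o, U3 - o], t := ![t1 - o, t2 - o, t3 - o], φ := ![φ1, φ2, φ3],
            o := ![o1, o2, o3], opos := ?_, osum := hsum, ocomb := hcomb, orient := ?_,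
            mem := ?_, phi_one := ?_, phi_sup := ?_, phi_neg := ?_, c3 := ?_ }⟩
  · intro i
    match i with
    | 0 => exact ho1
    | 1 => exact ho2
    | 2 => exact ho3
  · intro i
    match i with
    | 0 => show 0 < dt (U2 - o) (U3 - o); rw [hd1]; positivity
    | 1 => show 0 < dt (U3 - o) (U1 - o); rw [hd2]; positivity
    | 2 => show 0 < dt (U1 - o) (U2 - o); rw [hd3]; positivity
  · intro i j hij
    match i, j with
    | 0, 0 => exact absurd rfl hij
    | 0, 1 => show (U2 - o) - (t1 - o) ∈ K; rw [r12]; exact m12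
    | 0, 2 => show (U3 - o) - (t1 - o) ∈ K; rw [r13]; exact m13
    | 1, 0 => show (U1 - o) - (t2 - o) ∈ K; rw [r21]; exact m21
    | 1, 1 => exact absurd rfl hij
    | 1, 2 => show (U3 - o) - (t2 - o) ∈ K; rw [r23]; exact m23
    | 2, 0 => show (U1 - o) - (t3 - o) ∈ K; rw [r31]; exact m31
    | 2, 1 => show (U2 - o) - (t3 - o) ∈ K; rw [r32]; exact m32
    | 2, 2 => exact absurd rfl hij
  · intro i
    match i with
    | 0 => show pr φ1 ((U2 - o) - (U3 - o)) = 1; rw [s1]; exact n1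
    | 1 => show pr φ2 ((U3 - o) - (U1 - o)) = 1; rw [s2]; exact n2
    | 2 => show pr φ3 ((U1 - o) - (U2 - o)) = 1; rw [s3]; exact n3
  · intro i
    match i with
    | 0 => exact w1
    | 1 => exact w2
    | 2 => exact w3
  · intro i j hij
    match i, j with
    | 0, 0 => exact absurd rfl hij
    | 0, 1 => show pr φ1 ((U3 - o) - (U1 - o)) < 0; rw [s2]; exact z12
    | 0, 2 => show pr φ1 ((U1 - o) - (U2 - o)) < 0; rw [s3]; exact z13
    | 1, 0 => show pr φ2 ((U2 - o) - (U3 - o)) < 0; rw [s1]; exact z21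
    | 1, 1 => exact absurd rfl hij
    | 1, 2 => show pr φ2 ((U1 - o) - (U2 - o)) < 0; rw [s3]; exact z23
    | 2, 0 => show pr φ3 ((U2 - o) - (U3 - o)) < 0; rw [s1]; exact z31
    | 2, 1 => show pr φ3 ((U3 - o) - (U1 - o)) < 0; rw [s2]; exact z32
    | 2, 2 => exact absurd rfl hij
  · intro i c s hs0 hs1 hj hk
    have e12 : pr c (U1 - o) - pr c (U2 - o) = pr c (U1 - U2) := by
      rw [← pr_sub_right, s3]
    have e23 : pr c (U2 - o) - pr c (U3 - o) = pr c (U2 - U3) := by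
      rw [← pr_sub_right, s1]
    match i with
    | 0 =>
      rintro ⟨g1, g2, g3⟩
      change hs K c + pr c (t1 - o) < (1 - s) * pr c (U1 - o) at g1
      refine k1 c _ _ _ s (hlin c) e12 e23 hs0 hs1 hj hk ?_ g2 g3
      rw [pr_sub_right] at g1
      rw [pr_sub_right] at g1 ⊢
      linarith
    | 1 =>
      rintro ⟨g1, g2, g3⟩
      change hs K c + pr c (t2 - o) < (1 - s) * pr c (U2 - o) at g1
      refine k2 c _ _ _ s (hlin c) e12 e23 hs0 hs1 hj hk ?_ g2 g3
      rw [pr_sub_right] at g1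
      rw [pr_sub_right] at g1 ⊢
      linarith
    | 2 =>
      rintro ⟨g1, g2, g3⟩
      change hs K c + pr c (t3 - o) < (1 - s) * pr c (U3 - o) at g1
      refine k3 c _ _ _ s (hlin c) e12 e23 hs0 hs1 hj hk ?_ g2 g3
      rw [pr_sub_right] at g1
      rw [pr_sub_right] at g1 ⊢
      linarith

theorem zero_interior (K : Set (ℝ × ℝ)) (hi : (interior K).Nonempty) :
    (0 : ℝ × ℝ) ∈ interior (K - K) := by
  obtain ⟨k, hk⟩ := hi
  have hsub : interior K - {k} ⊆ interior (K - K) := by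
    apply interior_maximal
    · rintro z ⟨k', hk', n', hn', rfl⟩
      rw [Set.mem_singleton_iff] at hn'
      subst hn'
      exact Set.sub_mem_sub (interior_subset hk') (interior_subset hk)
    · exact isOpen_interior.sub_right
  apply hsub
  exact ⟨k, hk, k, rfl, sub_self k⟩

theorem frontier_sub_mem (K : Set (ℝ × ℝ)) (hK : IsCompact K) (e : ℝ × ℝ)
    (he : e ∈ frontier (K - K)) : e ∈ K - K := by
  have hc : IsClosed (K - K) := by
    rw [sub_eq_add_neg]
    exact (hK.add hK.neg).isClosed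
  exact hc.frontier_subset he

theorem build (hLO : T_lemmaO) (K : Set (ℝ × ℝ)) (hK : IsCompact K) (hcK : StrictConvex ℝ K)
    (hi : (interior K).Nonempty) (U1 U2 U3 t1 t2 t3 : ℝ × ℝ) (α β a : ℝ)
    (m12 : U2 - t1 ∈ K) (m13 : U3 - t1 ∈ K) (m21 : U1 - t2 ∈ K) (m23 : U3 - t2 ∈ K)
    (m31 : U1 - t3 ∈ K) (m32 : U2 - t3 ∈ K) (hdet : 0 < dt (U2 - U1) (U3 - U1))
    (b1 : U2 - U3 ∈ frontier (K - K)) (b2 : U3 - U1 ∈ frontier (K - K))
    (b3 : U1 - U2 ∈ frontier (K - K))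
    (F1 : t3 - t2 = α • (U2 - U3)) (F3 : t2 - t1 = -(a • (U2 - U3)) - β • (U3 - U1))
    (hαβ : α + β ≤ 1) : Nonempty (Config K) := by
  have hne : K.Nonempty := ⟨_, m12⟩
  obtain ⟨f1, f2, -, -, -⟩ := hs_facts K hne hK
  have hDs : StrictConvex ℝ (K - K) := hcK.sub hcK
  have h0 := zero_interior K hi
  obtain ⟨φ1, n1, l1⟩ := support (K - K) hDs.convex h0 _ b1
  obtain ⟨φ2, n2, l2⟩ := support (K - K) hDs.convex h0 _ b2
  obtain ⟨φ3, n3, l3⟩ := support (K - K) hDs.convex h0 _ b3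
  have hU12 : U1 ≠ U2 := by
    rintro rfl
    simp [dt] at hdet
  have hU13 : U1 ≠ U3 := by
    rintro rfl
    simp [dt] at hdet
  have hU23 : U2 ≠ U3 := by
    rintro rfl
    simp only [dt] at hdet
    linarith
  have c1 := frontier_sub_mem K hK _ b1
  have c2 := frontier_sub_mem K hK _ b2
  have c3 := frontier_sub_mem K hK _ b3
  have d1 : U3 - U2 ∈ K - K := by
    have := frontier_sub_mem K hK _ (frontier_neg_mem K _ b1)
    rwa [neg_sub] at this
  have d2 : U1 - U3 ∈ K - K := by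
    have := frontier_sub_mem K hK _ (frontier_neg_mem K _ b2)
    rwa [neg_sub] at this
  have d3 : U2 - U1 ∈ K - K := by
    have := frontier_sub_mem K hK _ (frontier_neg_mem K _ b3)
    rwa [neg_sub] at this
  have z12 : pr φ1 (U3 - U1) < 0 := by
    have h := strict_phi _ hDs φ1 l1 (U2 - U3) (U2 - U1) c1 d3 n1 (by
      intro h; exact hU13 (sub_right_injective h).symm)
    rw [pr_sub_right] at h n1 ⊢
    linarith
  have z13 : pr φ1 (U1 - U2) < 0 := by
    have h := strict_phi _ hDs φ1 l1 (U2 - U3) (U1 - U3) c1 d2 n1 (by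
      intro h; exact hU12 (sub_left_injective h).symm)
    rw [pr_sub_right] at h n1 ⊢
    linarith
  have z21 : pr φ2 (U2 - U3) < 0 := by
    have h := strict_phi _ hDs φ2 l2 (U3 - U1) (U2 - U1) c2 d3 n2 (by
      intro h; exact hU23 (sub_left_injective h).symm)
    rw [pr_sub_right] at h n2 ⊢
    linarith
  have z23 : pr φ2 (U1 - U2) < 0 := by
    have h := strict_phi _ hDs φ2 l2 (U3 - U1) (U3 - U2) c2 d1 n2 (by
      intro h; exact hU12 (sub_right_injective h))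
    rw [pr_sub_right] at h n2 ⊢
    linarith
  have z31 : pr φ3 (U2 - U3) < 0 := by
    have h := strict_phi _ hDs φ3 l3 (U1 - U2) (U1 - U3) c3 d2 n3 (by
      intro h; exact hU23 (sub_right_injective h))
    rw [pr_sub_right] at h n3 ⊢
    linarith
  have z32 : pr φ3 (U3 - U1) < 0 := by
    have h := strict_phi _ hDs φ3 l3 (U1 - U2) (U3 - U2) c3 d1 n3 (by
      intro h; exact hU13 (sub_left_injective h))
    rw [pr_sub_right] at h n3 ⊢
    linarith
  -- width inequalities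
  have W : ∀ φ : ℝ × ℝ, (∀ p ∈ K - K, pr φ p ≤ 1) → ∀ p ∈ K, ∀ q ∈ K,
      pr φ p - pr φ q ≤ 1 := by
    intro φ hφ p hp q hq
    rw [← pr_sub_right]
    exact hφ _ (Set.sub_mem_sub hp hq)
  have hF1 : ∀ φ, pr φ t3 - pr φ t2 = α * pr φ (U2 - U3) := by
    intro φ
    rw [← pr_sub_right, F1, pr_smul_right]
  have hF3 : ∀ φ, pr φ t2 - pr φ t1 = -(a * pr φ (U2 - U3)) - β * pr φ (U3 - U1) := by
    intro φ
    rw [← pr_sub_right, F3, pr_sub_right, pr_neg_right, pr_smul_right, pr_smul_right]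
  have q21 := pr_sub_right φ2 U2 U3
  have q22 := pr_sub_right φ2 U3 U1
  have q23 := pr_sub_right φ2 U1 U2
  have q11 := pr_sub_right φ1 U2 U3
  have q12 := pr_sub_right φ1 U3 U1
  have q13 := pr_sub_right φ1 U1 U2
  have x2' : 1 - -pr φ2 (U1 - U2) = -pr φ2 (U2 - U3) := by linarith
  have x1' : 1 - -pr φ1 (U3 - U1) = -pr φ1 (U1 - U2) := by linarith
  have e21 := hF1 φ2
  have e23 := hF3 φ2
  have e11 := hF1 φ1
  have e13 := hF3 φ1
  rw [n1, mul_one] at e11 e13
  rw [n2, mul_one] at e23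
  have g1 := W φ2 l2 _ m32 _ m21
  have g2 := W φ2 l2 _ m23 _ m31
  have g3 := W φ1 l1 _ m12 _ m31
  have g4 := W φ1 l1 _ m32 _ m13
  have g5 := W φ1 l1 _ m21 _ m13
  have g6 := W φ1 l1 _ m12 _ m23
  have g7 := W φ2 l2 _ m23 _ m12
  have g8 := W φ2 l2 _ m13 _ m21
  rw [pr_sub_right, pr_sub_right] at g1 g2 g3 g4 g5 g6 g7 g8
  obtain ⟨hα0, hα1, hβ0, hβ1, hab1, hab2, hz⟩ :=
    params α β a (-pr φ1 (U3 - U1)) (-pr φ2 (U1 - U2))
      (by linarith) (by linarith) (by linarith) (by linarith)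
      (by rw [x2']; linarith) (by rw [x2']; linarith) (by linarith) (by linarith)
      (by rw [x1']; linarith) (by linarith) (by rw [x2']; linarith) (by rw [x2']; linarith)
  by_cases hdeg : α = 0 ∨ β = 0
  · -- all translates coincide
    have key : U1 - t1 ∈ K ∧ U2 - t2 ∈ K ∧ U3 - t3 ∈ K := by
      rcases hdeg with rfl | rfl
      · rw [zero_smul, sub_eq_zero] at F1
        subst F1
        have h := uniq K hcK (U2 - t1) (U3 - t1) (U2 - t3) (U3 - t3) m12 m13 m32 m23 (by abel)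
          (by rw [sub_sub_sub_cancel_right]; exact b1)
        have h' : t1 = t3 := sub_right_injective h
        subst h'
        exact ⟨m31, m32, m23⟩
      · have ha := hz rfl
        rw [ha, zero_smul, zero_smul, neg_zero, sub_zero, sub_eq_zero] at F3
        subst F3
        have h := uniq K hcK (U1 - t3) (U2 - t3) (U1 - t2) (U2 - t2) m31 m32 m21 m12 (by abel)
          (by rw [sub_sub_sub_cancel_right]; exact b3)
        have h' : t3 = t2 := sub_right_injective h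
        subst h'
        exact ⟨m21, m12, m13⟩
    obtain ⟨j1, j2, j3⟩ := key
    refine mkcfg K hne hK U1 U2 U3 t1 t2 t3 φ1 φ2 φ3 m12 m13 m21 m23 m31 m32 hdet n1 n2 n3
      l1 l2 l3 z12 z13 z21 z23 z31 z32 (1 / 3) (1 / 3) (1 / 3) (by norm_num) (by norm_num)
      (by norm_num) (by norm_num) ?_ ?_ ?_
    · intro c c1 c2 c3 s hc _ _ hs0 hs1 hc2 hc3 g _ _
      have h := f1 c _ j1
      rw [pr_sub_right] at h
      have hp : 0 < c1 := by linarith
      have hq := mul_pos hs0 hp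
      linarith
    · intro c c1 c2 c3 s hc _ _ hs0 hs1 hc2 hc3 g _ _
      have h := f1 c _ j2
      rw [pr_sub_right] at h
      have hp : 0 < c2 := by linarith
      have hq := mul_pos hs0 hp
      linarith
    · intro c c1 c2 c3 s hc _ _ hs0 hs1 hc2 hc3 g _ _
      have h := f1 c _ j3
      rw [pr_sub_right] at h
      have hp : 0 < c3 := by linarith
      have hq := mul_pos hs0 hp
      linarith
  · push Not at hdeg
    have hα : 0 < α := lt_of_le_of_ne hα0 (Ne.symm hdeg.1)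
    have hβ : 0 < β := lt_of_le_of_ne hβ0 (Ne.symm hdeg.2)
    obtain ⟨o1, o2, o3, ho1, ho2, ho3, hsum, L1, L2, L3⟩ :=
      hLO α β a (α + β - a) hα hβ hαβ (by ring) hab1 hab2
    refine mkcfg K hne hK U1 U2 U3 t1 t2 t3 φ1 φ2 φ3 m12 m13 m21 m23 m31 m32 hdet n1 n2 n3
      l1 l2 l3 z12 z13 z21 z23 z31 z32 o1 o2 o3 ho1 ho2 ho3 hsum ?_ ?_ ?_
    · intro c c1 c2 c3 s hc e1 e2 hs0 hs1 hc2 hc3 r1 r2 r3
      have h1 := f1 c _ m31
      have h2 := f1 c _ m21
      have h3 := hF1 c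
      have h4 := hF3 c
      have q1 := pr_sub_right c U1 U2
      have q2 := pr_sub_right c U2 U3
      have q3 := pr_sub_right c U3 U1
      have hE1 : pr c (U2 - U3) = c2 - c3 := e2.symm
      have hE2 : pr c (U3 - U1) = c3 - c1 := by linarith
      rw [hE1] at h3 h4
      rw [hE2] at h4
      rw [pr_sub_right] at h1 h2
      exact cl1 α β a (α + β - a) o1 o2 o3 (by ring) ho1 ho2 ho3 hsum L1 c1 c2 c3 s _ hc hc2 hc3
        hs0 hs1 (by linarith) (by linarith) r1 r2 r3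
    · intro c c1 c2 c3 s hc e1 e2 hs0 hs1 hc2 hc3 r1 r2 r3
      have h1 := f1 c _ m12
      have h2 := f1 c _ m32
      have h3 := hF1 c
      have h4 := hF3 c
      have q1 := pr_sub_right c U1 U2
      have q2 := pr_sub_right c U2 U3
      have q3 := pr_sub_right c U3 U1
      have hE1 : pr c (U2 - U3) = c2 - c3 := e2.symm
      have hE2 : pr c (U3 - U1) = c3 - c1 := by linarith
      rw [hE1] at h3 h4
      rw [hE2] at h4
      rw [pr_sub_right] at h1 h2
      exact cl2 α β a o1 o2 o3 ho1 ho2 ho3 hsum L2 c1 c2 c3 s _ hc hc3 hc2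
        hs0 hs1 (by linarith) (by linarith) r1 r2 r3
    · intro c c1 c2 c3 s hc e1 e2 hs0 hs1 hc2 hc3 r1 r2 r3
      have h1 := f1 c _ m23
      have h2 := f1 c _ m13
      have h3 := hF1 c
      have h4 := hF3 c
      have q1 := pr_sub_right c U1 U2
      have q2 := pr_sub_right c U2 U3
      have q3 := pr_sub_right c U3 U1
      have hE1 : pr c (U2 - U3) = c2 - c3 := e2.symm
      have hE2 : pr c (U3 - U1) = c3 - c1 := by linarith
      rw [hE1] at h3 h4
      rw [hE2] at h4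
      rw [pr_sub_right] at h1 h2
      exact cl3 α β a (α + β - a) o1 o2 o3 (by ring) ho1 ho2 ho3 hsum L3 c1 c2 c3 s _ hc hc2 hc3
        hs0 hs1 (by linarith) (by linarith) r1 r2 r3

/-- M4: existence of a good configuration (from M2 and M3). -/
theorem exists_config (hLO : T_lemmaO) (hTS : T_tshape) (K : Set (ℝ × ℝ)) (hK : IsCompact K)
    (hc : StrictConvex ℝ K) (hi : (interior K).Nonempty) : Nonempty (Config K) := by
  obtain ⟨e, w, x0, y0, x1, y1, x2, y2, α, hx0, hy0, hx1, hy1, hx2, hy2, h0, h1, h2, b1, b2, b3,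
    hdet, hF⟩ := hTS K hK hc hi
  -- a second basis vector
  set V : ℝ × ℝ := -y2 - (w - x0) with hV
  obtain ⟨a, β, hVab⟩ : ∃ a β : ℝ, V = -(a • e) - β • (w - e) := by
    refine ⟨dt (w - e) V / dt e w, -(dt e V / dt e w), ?_⟩
    have hne : dt e w ≠ 0 := hdet.ne'
    have key : V = (dt e w)⁻¹ • (dt V (w - e) • e + dt e V • (w - e)) := by
      have : dt V (w - e) • e + dt e V • (w - e) = dt e w • V := by
        ext
        · simp only [dt, Prod.fst_add, Prod.smul_fst, Prod.fst_sub, Prod.snd_sub, smul_eq_mul]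
          ring
        · simp only [dt, Prod.snd_add, Prod.smul_snd, Prod.fst_sub, Prod.snd_sub, smul_eq_mul]
          ring
      rw [this, smul_smul, inv_mul_cancel₀ hne, one_smul]
    have hanti : dt V (w - e) = -dt (w - e) V := by simp only [dt]; ring
    conv_lhs => rw [key, hanti]
    module
  have e1 : w - (w - e) = e := by abel
  have nb1 := frontier_neg_mem K _ b1
  have nb2 := frontier_neg_mem K _ b2
  have nb3 := frontier_neg_mem K _ b3
  by_cases hαβ : α + β ≤ 1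
  · refine build hLO K hK hc hi 0 w (w - e) (w - x0) (-y2) (-y1) α β a ?_ ?_ ?_ ?_ ?_ ?_ ?_ ?_ ?_ ?_
      ?_ ?_ hαβ
    · rw [sub_sub_cancel]; exact hx0
    · have : w - e - (w - x0) = y0 := by rw [← h0]; abel
      rw [this]; exact hy0
    · rw [zero_sub, neg_neg]; exact hy2
    · have : w - e - -y2 = x2 := by rw [← h2]; abel
      rw [this]; exact hx2
    · rw [zero_sub, neg_neg]; exact hy1
    · have : w - -y1 = x1 := by rw [← h1]; abel
      rw [this]; exact hx1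
    · have : dt (w - 0) (w - e - 0) = dt e w := by
        simp only [dt, Prod.fst_sub, Prod.snd_sub, Prod.fst_zero, Prod.snd_zero]; ring
      rw [this]; exact hdet
    · rw [e1]; exact b1
    · rw [sub_zero]; exact b3
    · rw [zero_sub]; exact nb2
    · rw [e1, ← hF]; abel
    · rw [e1, sub_zero, ← hVab]
  · have h3 : (1 - α) + (1 - β) ≤ 1 := by linarith
    refine build hLO K hK hc hi (-0) (-w) (-(w - e)) ((w - x0) - w - (w - e)) (-y2 - (w - e))
      (-y1 - w) (1 - α) (1 - β) (1 - a) ?_ ?_ ?_ ?_ ?_ ?_ ?_ ?_ ?_ ?_ ?_ ?_ h3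
    · have : -w - (w - x0 - w - (w - e)) = y0 := by
        have : y0 = x0 - e := by rw [← h0]; abel
        rw [this]; abel
      rw [this]; exact hy0
    · have : -(w - e) - (w - x0 - w - (w - e)) = x0 := by abel
      rw [this]; exact hx0
    · have : -0 - (-y2 - (w - e)) = x2 := by rw [← h2]; abel
      rw [this]; exact hx2
    · have : -(w - e) - (-y2 - (w - e)) = y2 := by abel
      rw [this]; exact hy2
    · have : -0 - (-y1 - w) = x1 := by rw [← h1]; abel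
      rw [this]; exact hx1
    · have : -w - (-y1 - w) = y1 := by abel
      rw [this]; exact hy1
    · have : dt (-w - -0) (-(w - e) - -0) = dt e w := by
        simp only [dt, Prod.fst_sub, Prod.snd_sub, Prod.fst_neg, Prod.snd_neg, Prod.fst_zero,
          Prod.snd_zero]; ring
      rw [this]; exact hdet
    · have : -w - -(w - e) = -e := by abel
      rw [this]; exact nb1
    · have : -(w - e) - -0 = -(w - e) := by abel
      rw [this]; exact nb3
    · have : -0 - -w = w := by abel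
      rw [this]; exact b2
    · have t1 : -w - -(w - e) = -e := by abel
      have t2 : -y1 - w - (-y2 - (w - e)) = (y2 - y1) - e := by abel
      rw [t1, t2, hF]; module
    · have t1 : -w - -(w - e) = -e := by abel
      have t2 : -(w - e) - -0 = -(w - e) := by abel
      have t3 : -y2 - (w - e) - (w - x0 - w - (w - e)) = V + w := by rw [hV]; abel
      rw [t1, t2, t3, hVab]; module

end H78Dol
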