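import Pool.Agent.H40.Dol.HS

/-!
Uniqueness of the third vertex (part (b) of module M3).
-/

namespace H78Dol

open H40Dol

theorem dt_smul_self (e : ℝ × ℝ) (x : ℝ) : dt e (x • e) = 0 := by
  simp only [dt, Prod.smul_fst, Prod.smul_snd, smul_eq_mul]; ring

theorem dt_add (e a b : ℝ × ℝ) : dt e (a + b) = dt e a + dt e b := by
  simp only [dt, Prod.fst_add, Prod.snd_add]; ring

theorem dt_sub (e a b : ℝ × ℝ) : dt e (a - b) = dt e a - dt e b := by
  simp only [dt, Prod.fst_sub, Prod.snd_sub]; ring

theorem dt_smul (e a : ℝ × ℝ) (x : ℝ) : dt e (x • a) = x * dt e a := by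
  simp only [dt, Prod.smul_fst, Prod.smul_snd, smul_eq_mul]; ring

theorem dt_self (e : ℝ × ℝ) : dt e e = 0 := by
  simp only [dt]; ring

/-- A vector with zero determinant against `e` is a multiple of `e`. -/
theorem exists_smul (e v : ℝ × ℝ) (he : e ≠ 0) (h : dt e v = 0) : ∃ x : ℝ, v = x • e := by
  have hn : e.1 ^ 2 + e.2 ^ 2 ≠ 0 := by
    intro h0
    apply he
    have h1 : e.1 = 0 := by nlinarith [sq_nonneg e.1, sq_nonneg e.2]
    have h2 : e.2 = 0 := by nlinarith [sq_nonneg e.1, sq_nonneg e.2]
    ext
    · exact h1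
    · exact h2
  refine ⟨(e.1 * v.1 + e.2 * v.2) / (e.1 ^ 2 + e.2 ^ 2), ?_⟩
  simp only [dt] at h
  ext
  · simp only [Prod.smul_fst, smul_eq_mul]
    field_simp
    linear_combination (-e.2) * h
  · simp only [Prod.smul_snd, smul_eq_mul]
    field_simp
    linear_combination e.1 * h

/-- A point strictly between two different points of a strictly convex set is interior. -/
theorem btw (D : Set (ℝ × ℝ)) (hs : StrictConvex ℝ D) (p e : ℝ × ℝ) (he : e ≠ 0) (a b : ℝ)
    (ha : 0 < a) (hb : 0 < b) (h1 : p - a • e ∈ D) (h2 : p + b • e ∈ D) : p ∈ interior D := by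
  have hne : p - a • e ≠ p + b • e := by
    intro h
    have : (a + b) • e = 0 := by
      have h3 : (a + b) • e = (p + b • e) - (p - a • e) := by module
      rw [h3, ← h, sub_self]
    rcases smul_eq_zero.mp this with h4 | h4
    · linarith
    · exact he h4
  have hab : 0 < a + b := by linarith
  have h := hs h1 h2 hne (a := b / (a + b)) (b := a / (a + b)) (by positivity) (by positivity)
    (by field_simp; ring)
  have h5 : (b / (a + b)) • (p - a • e) + (a / (a + b)) • (p + b • e) = p := by
    have e1 : (b / (a + b)) • (p - a • e) + (a / (a + b)) • (p + b • e) =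
        ((b + a) / (a + b)) • p + ((a * b - b * a) / (a + b)) • e := by module
    rw [e1, add_comm b a, div_self hab.ne', mul_comm a b, sub_self, zero_div, one_smul, zero_smul,
      add_zero]
  rw [h5] at h
  exact h

theorem height_pos (D : Set (ℝ × ℝ)) (hs : StrictConvex ℝ D) (hcl : IsClosed D)
    (hneg : ∀ x ∈ D, -x ∈ D) (h0 : (0 : ℝ × ℝ) ∈ interior D) (e w : ℝ × ℝ)
    (he : e ∈ frontier D) (hw : w ∈ frontier D) (hwe : w - e ∈ frontier D)
    (hdet : 0 ≤ dt e w) : 0 < dt e w := by
  have he0 : e ≠ 0 := by
    rintro rfl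
    exact he.2 h0
  rcases hdet.lt_or_eq with h | h
  · exact h
  exfalso
  obtain ⟨c, hc⟩ := exists_smul e w he0 h.symm
  have heD : e ∈ D := hcl.frontier_subset he
  have hwD : w ∈ D := hcl.frontier_subset hw
  have hweD : w - e ∈ D := hcl.frontier_subset hwe
  have hneD : -e ∈ D := hneg e heD
  -- c is between -1 and 1
  have c1 : c ≤ 1 := by
    by_contra hc1
    push Not at hc1
    apply he.2
    apply btw D hs e e he0 2 (c - 1) (by norm_num) (by linarith)
    · have : e - (2 : ℝ) • e = -e := by module
      rw [this]; exact hneD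
    · have : e + (c - 1) • e = w := by rw [hc]; module
      rw [this]; exact hwD
  have c2 : 0 ≤ c := by
    by_contra hc1
    push Not at hc1
    -- w - e = (c - 1) e is beyond -e
    have : -e ∈ interior D := by
      apply btw D hs (-e) e he0 (-c) 2 (by linarith) (by norm_num)
      · have : -e - (-c) • e = w - e := by rw [hc]; module
        rw [this]; exact hweD
      · have : -e + (2 : ℝ) • e = e := by module
        rw [this]; exact heD
    -- then e is interior by symmetry, use w - e and the segment
    have h3 : -(-e) ∈ interior D := by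
      have hsub : -(interior D) ⊆ interior D := by
        apply interior_maximal
        · intro x hx
          have := interior_subset hx
          have h4 := hneg _ this
          rwa [neg_neg] at h4
        · exact isOpen_interior.neg
      apply hsub
      rw [Set.mem_neg, neg_neg]
      exact this
    rw [neg_neg] at h3
    exact he.2 h3
  -- so 0 <= c <= 1 and w, w - e both on the segment from -e to e
  rcases lt_or_eq_of_le c1 with h5 | h5
  · apply hw.2
    apply btw D hs w e he0 (c + 1) (1 - c) (by linarith) (by linarith)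
    · have : w - (c + 1) • e = -e := by rw [hc]; module
      rw [this]; exact hneD
    · have : w + (1 - c) • e = e := by rw [hc]; module
      rw [this]; exact heD
  · apply hwe.2
    have : w - e = 0 := by rw [hc, h5]; module
    rw [this]; exact h0

theorem uniq_w_aux (D : Set (ℝ × ℝ)) (hs : StrictConvex ℝ D) (hcl : IsClosed D)
    (hneg : ∀ x ∈ D, -x ∈ D) (h0 : (0 : ℝ × ℝ) ∈ interior D) (e w w' : ℝ × ℝ)
    (he : e ∈ frontier D) (hw : w ∈ frontier D) (hwe : w - e ∈ frontier D)
    (hw' : w' ∈ frontier D) (hwe' : w' - e ∈ frontier D)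
    (hd : 0 < dt e w) (hlt : dt e w < dt e w') : False := by
  have he0 : e ≠ 0 := by
    rintro rfl
    exact he.2 h0
  have heD : e ∈ D := hcl.frontier_subset he
  have hneD : -e ∈ D := hneg e heD
  have hwD : w ∈ D := hcl.frontier_subset hw
  have hweD : w - e ∈ D := hcl.frontier_subset hwe
  have hwD' : w' ∈ D := hcl.frontier_subset hw'
  have hweD' : w' - e ∈ D := hcl.frontier_subset hwe'
  set l := dt e w / dt e w' with hl
  have hd' : 0 < dt e w' := lt_trans hd hlt
  have hl0 : 0 < l := div_pos hd hd'
  have hl1 : l < 1 := (div_lt_one hd').mpr hlt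
  have hlm : l * dt e w' = dt e w := by rw [hl]; field_simp
  have hne1 : e ≠ w' := by
    rintro h
    rw [← h, dt_self] at hd'
    exact lt_irrefl _ hd'
  have hne2 : -e ≠ w' - e := by
    intro h
    have h1 : w' = 0 := by
      have := congrArg (fun z => z + e) h
      simpa using this.symm
    rw [h1] at hd'
    simp [dt] at hd'
  have m1 : (1 - l) • e + l • w' ∈ interior D :=
    hs heD hwD' hne1 (by linarith) hl0 (by ring)
  have m2 : (1 - l) • (-e) + l • (w' - e) ∈ interior D :=
    hs hneD hweD' hne2 (by linarith) hl0 (by ring)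
  set p := (1 - l) • (-e) + l • (w' - e) with hp
  have hm1 : (1 - l) • e + l • w' = p + (2 - l) • e := by rw [hp]; module
  rw [hm1] at m1
  have hdp : dt e (w - p) = 0 := by
    rw [dt_sub, hp, dt_add, dt_smul, dt_smul, dt_sub, dt_self]
    have : dt e (-e) = 0 := by simp only [dt, Prod.fst_neg, Prod.snd_neg]; ring
    rw [this]
    linarith
  obtain ⟨x, hx⟩ := exists_smul e (w - p) he0 hdp
  have hwx : w = p + x • e := by rw [← hx]; abel
  have hwx' : w - e = p + (x - 1) • e := by rw [hwx]; module
  have hpD := interior_subset m2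
  have hqD := interior_subset m1
  rcases lt_trichotomy x 0 with h1 | h1 | h1
  · apply hw.2
    apply btw D hs w e he0 1 (-x) (by norm_num) (by linarith)
    · rw [one_smul]; exact hweD
    · have : w + (-x) • e = p := by rw [hwx]; module
      rw [this]; exact hpD
  · apply hw.2
    have : w = p := by rw [hwx, h1]; module
    rw [this]; exact m2
  · rcases lt_trichotomy x (2 - l) with h2 | h2 | h2
    · apply hw.2
      apply btw D hs w e he0 x (2 - l - x) h1 (by linarith)
      · have : w - x • e = p := by rw [hwx]; module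
        rw [this]; exact hpD
      · have : w + (2 - l - x) • e = p + (2 - l) • e := by rw [hwx]; module
        rw [this]; exact hqD
    · apply hw.2
      have : w = p + (2 - l) • e := by rw [hwx, h2]
      rw [this]; exact m1
    · -- w - e
      rcases lt_trichotomy (x - 1) (2 - l) with h3 | h3 | h3
      · apply hwe.2
        apply btw D hs (w - e) e he0 (x - 1) (2 - l - (x - 1)) (by linarith) (by linarith)
        · have : w - e - (x - 1) • e = p := by rw [hwx]; module
          rw [this]; exact hpD
        · have : w - e + (2 - l - (x - 1)) • e = p + (2 - l) • e := by rw [hwx]; module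
          rw [this]; exact hqD
      · apply hwe.2
        have : w - e = p + (2 - l) • e := by rw [hwx', h3]
        rw [this]; exact m1
      · apply hwe.2
        apply btw D hs (w - e) e he0 (x - 1 - (2 - l)) 1 (by linarith) (by norm_num)
        · have : w - e - (x - 1 - (2 - l)) • e = p + (2 - l) • e := by rw [hwx]; module
          rw [this]; exact hqD
        · have : w - e + (1 : ℝ) • e = w := by module
          rw [this]; exact hwD

theorem uniq_w_aux2 (D : Set (ℝ × ℝ)) (hs : StrictConvex ℝ D) (hcl : IsClosed D)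
    (h0 : (0 : ℝ × ℝ) ∈ interior D) (e w w' : ℝ × ℝ)
    (he : e ∈ frontier D) (hw : w ∈ frontier D) (hwe : w - e ∈ frontier D)
    (hw' : w' ∈ frontier D) (k : ℝ) (hk : 0 < k) (hww : w' = w + k • e) : False := by
  have he0 : e ≠ 0 := by
    rintro rfl
    exact he.2 h0
  apply hw.2
  apply btw D hs w e he0 1 k (by norm_num) hk
  · rw [one_smul]; exact hcl.frontier_subset hwe
  · rw [← hww]; exact hcl.frontier_subset hw'

/-- Uniqueness of the third vertex: for `e` on the boundary of the strictly convex symmetric
set `D` there is at most one `w` on the left of `e` with `w` and `w - e` on the boundary. -/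
theorem uniq_w (D : Set (ℝ × ℝ)) (hs : StrictConvex ℝ D) (hcl : IsClosed D)
    (hneg : ∀ x ∈ D, -x ∈ D) (h0 : (0 : ℝ × ℝ) ∈ interior D) (e w w' : ℝ × ℝ)
    (he : e ∈ frontier D) (hw : w ∈ frontier D) (hwe : w - e ∈ frontier D)
    (hw' : w' ∈ frontier D) (hwe' : w' - e ∈ frontier D)
    (hd : 0 ≤ dt e w) (hd' : 0 ≤ dt e w') : w = w' := by
  have he0 : e ≠ 0 := by
    rintro rfl
    exact he.2 h0
  have p1 := height_pos D hs hcl hneg h0 e w he hw hwe hd
  have p2 := height_pos D hs hcl hneg h0 e w' he hw' hwe' hd'
  rcases lt_trichotomy (dt e w) (dt e w') with h | h | h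
  · exact (uniq_w_aux D hs hcl hneg h0 e w w' he hw hwe hw' hwe' p1 h).elim
  · have hz : dt e (w' - w) = 0 := by rw [dt_sub, h]; ring
    obtain ⟨k, hk⟩ := exists_smul e (w' - w) he0 hz
    have hk1 : w' = w + k • e := by rw [← hk]; abel
    have hk2 : w = w' + (-k) • e := by rw [hk1]; module
    rcases lt_trichotomy k 0 with h1 | h1 | h1
    · exact (uniq_w_aux2 D hs hcl h0 e w' w he hw' hwe' hw (-k) (by linarith) hk2).elim
    · rw [hk1, h1]; module
    · exact (uniq_w_aux2 D hs hcl h0 e w w' he hw hwe hw' k h1 hk1).elim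
  · exact (uniq_w_aux D hs hcl hneg h0 e w' w he hw' hwe' hw hwe p2 h).elim

end H78Dol
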