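import Pool.Agent.H78.Dol.M4
import Pool.Agent.H78.Dol.U

/-!
Module M3 (T-shape).
-/

namespace H78Dol

open H40Dol Pointwise Topology Filter

theorem cont_of_unique {Y : Type*} [TopologicalSpace Y] [FirstCountableTopology Y] (Z : Set Y)
    (hZ : IsCompact Z) (R : Set (ℝ × Y)) (hR : IsClosed R) (hRZ : ∀ x y, (x, y) ∈ R → y ∈ Z)
    (f : ℝ → Y) (hf : ∀ x, (x, f x) ∈ R) (hu : ∀ x y, (x, y) ∈ R → y = f x) : Continuous f := by
  rw [continuous_iff_continuousAt]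
  intro x
  apply tendsto_of_subseq_tendsto
  intro ns hns
  obtain ⟨y, _, φ, hφ, hlim⟩ := hZ.tendsto_subseq (fun n => hRZ _ _ (hf (ns n)))
  have h1 : Tendsto (fun n => (ns (φ n), f (ns (φ n)))) atTop (𝓝 (x, y)) :=
    (hns.comp hφ.tendsto_atTop).prodMk_nhds hlim
  have h2 : (x, y) ∈ R := hR.mem_of_tendsto h1 (Eventually.of_forall (fun n => hf _))
  have h3 := hu x y h2
  rw [← h3]
  exact ⟨φ, hlim⟩

theorem neg_mem_diff (K : Set (ℝ × ℝ)) : ∀ x ∈ K - K, -x ∈ K - K := by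
  rintro _ ⟨a, ha, b, hb, rfl⟩
  exact ⟨b, hb, a, ha, by simp⟩

/-- M3 (T-shape). -/
theorem tshape (K : Set (ℝ × ℝ)) (hK : IsCompact K) (hc : StrictConvex ℝ K)
    (hi : (interior K).Nonempty) :
    ∃ e w x0 y0 x1 y1 x2 y2 : ℝ × ℝ, ∃ α : ℝ,
      x0 ∈ K ∧ y0 ∈ K ∧ x1 ∈ K ∧ y1 ∈ K ∧ x2 ∈ K ∧ y2 ∈ K ∧
      x0 - y0 = e ∧ x1 - y1 = w ∧ x2 - y2 = w - e ∧
      e ∈ frontier (K - K) ∧ w ∈ frontier (K - K) ∧ w - e ∈ frontier (K - K) ∧
      0 < dt e w ∧ y2 - y1 = α • e := by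
  set D : Set (ℝ × ℝ) := K - K with hDdef
  have hDs : StrictConvex ℝ D := hc.sub hc
  have hDc : IsCompact D := by
    rw [hDdef, sub_eq_add_neg]
    exact hK.add hK.neg
  have hDcl : IsClosed D := hDc.isClosed
  have h0 : (0 : ℝ × ℝ) ∈ interior D := zero_interior K hi
  have hnhds : D ∈ 𝓝 (0 : ℝ × ℝ) := mem_interior_iff_mem_nhds.mp h0
  have hneg : ∀ x ∈ D, -x ∈ D := neg_mem_diff K
  -- the gauge
  set g : ℝ × ℝ → ℝ := gauge D with hg
  have hgc : Continuous g := continuous_gauge hDs.convex hnhds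
  have hfr : ∀ x, g x = 1 ↔ x ∈ frontier D := fun x =>
    gauge_eq_one_iff_mem_frontier hDs.convex hnhds
  have hgpos : ∀ x, x ≠ 0 → 0 < g x := by
    intro x hx
    exact (gauge_pos (absorbent_nhds_zero hnhds)
      ((NormedSpace.isVonNBounded_iff ℝ).mpr hDc.isBounded)).mpr hx
  have hgneg : ∀ x, g (-x) = g x := fun x => gauge_neg hneg x
  have hgs : ∀ (t : ℝ) (x : ℝ × ℝ), 0 ≤ t → g (t • x) = t * g x := by
    intro t x ht
    have := gauge_smul_of_nonneg (s := D) ht x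
    simpa [hg] using this
  -- directions
  set v : ℝ → ℝ × ℝ := fun θ => (Real.cos θ, Real.sin θ) with hv
  have hvc : Continuous v := by
    rw [hv]; exact Real.continuous_cos.prodMk Real.continuous_sin
  have hv0 : ∀ θ, v θ ≠ 0 := by
    intro θ h
    have h1 : Real.cos θ = 0 := congrArg Prod.fst h
    have h2 : Real.sin θ = 0 := congrArg Prod.snd h
    have h3 := Real.sin_sq_add_cos_sq θ
    rw [h1, h2] at h3
    norm_num at h3
  have hvpi : ∀ θ, v (θ + Real.pi) = -v θ := by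
    intro θ
    simp only [hv, Real.cos_add_pi, Real.sin_add_pi, Prod.neg_mk]
  set r : ℝ → ℝ × ℝ := fun θ => (g (v θ))⁻¹ • v θ with hr
  have hrc : Continuous r := by
    rw [hr]
    exact ((hgc.comp hvc).inv₀ (fun θ => (hgpos _ (hv0 θ)).ne')).smul hvc
  have hrpi : ∀ θ, r (θ + Real.pi) = -r θ := by
    intro θ
    simp only [hr, hvpi, hgneg, smul_neg]
  have hrg : ∀ θ, g (r θ) = 1 := by
    intro θ
    have h1 := hgpos _ (hv0 θ)
    simp only [hr]
    rw [hgs _ _ (by positivity)]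
    field_simp
  have hrD : ∀ θ, r θ ∈ frontier D := fun θ => (hfr _).mp (hrg θ)
  have hdr : ∀ θ s, 0 ≤ s → s ≤ Real.pi → 0 ≤ dt (r θ) (r (θ + s)) := by
    intro θ s hs0 hs1
    have h1 := hgpos _ (hv0 θ)
    have h2 := hgpos _ (hv0 (θ + s))
    have h3 : dt (r θ) (r (θ + s)) = (g (v θ))⁻¹ * (g (v (θ + s)))⁻¹ * Real.sin s := by
      have h4 : Real.sin s = Real.sin (θ + s) * Real.cos θ - Real.cos (θ + s) * Real.sin θ := by
        rw [← Real.sin_sub]; congr 1; ring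
      rw [h4]
      simp only [hr, hv, dt, Prod.smul_fst, Prod.smul_snd, smul_eq_mul]
      ring
    rw [h3]
    have h5 := Real.sin_nonneg_of_nonneg_of_le_pi hs0 hs1
    positivity
  -- existence of the configuration
  have hex : ∀ θ, ∃ w, w ∈ frontier D ∧ w - r θ ∈ frontier D ∧ 0 ≤ dt (r θ) w := by
    intro θ
    have hcont : Continuous (fun s => g (r (θ + s) - r θ)) :=
      hgc.comp ((hrc.comp (continuous_const.add continuous_id)).sub continuous_const)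
    have h1 : g (r (θ + 0) - r θ) = 0 := by
      rw [add_zero, sub_self, hg, gauge_zero]
    have h2 : g (r (θ + Real.pi) - r θ) = 2 := by
      rw [hrpi]
      have : -r θ - r θ = (2 : ℝ) • (-r θ) := by module
      rw [this, hgs _ _ (by norm_num), hgneg, hrg]
      norm_num
    have h3 : (1 : ℝ) ∈ Set.Icc (g (r (θ + 0) - r θ)) (g (r (θ + Real.pi) - r θ)) := by
      rw [h1, h2]; constructor <;> norm_num
    obtain ⟨s, hs, hs'⟩ := intermediate_value_Icc Real.pi_pos.le hcont.continuousOn h3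
    exact ⟨r (θ + s), hrD _, (hfr _).mp hs', hdr θ s hs.1 hs.2⟩
  -- the relation
  set Z : Set ((ℝ × ℝ) × (ℝ × ℝ) × (ℝ × ℝ) × (ℝ × ℝ) × (ℝ × ℝ)) :=
    D ×ˢ K ×ˢ K ×ˢ K ×ˢ K with hZ
  set R : Set (ℝ × ((ℝ × ℝ) × (ℝ × ℝ) × (ℝ × ℝ) × (ℝ × ℝ) × (ℝ × ℝ))) :=
    {z | z.2.1 ∈ frontier D ∧ z.2.1 - r z.1 ∈ frontier D ∧ 0 ≤ dt (r z.1) z.2.1 ∧
      z.2.2.1 ∈ K ∧ z.2.2.2.1 ∈ K ∧ z.2.2.2.2.1 ∈ K ∧ z.2.2.2.2.2 ∈ K ∧
      z.2.2.1 - z.2.2.2.1 = z.2.1 ∧ z.2.2.2.2.1 - z.2.2.2.2.2 = z.2.1 - r z.1} with hRdef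
  have hZc : IsCompact Z := hDc.prod (hK.prod (hK.prod (hK.prod hK)))
  have hKcl : IsClosed K := hK.isClosed
  have hRcl : IsClosed R := by
    have c1 : Continuous (fun z : ℝ × ((ℝ × ℝ) × (ℝ × ℝ) × (ℝ × ℝ) × (ℝ × ℝ) × (ℝ × ℝ)) => r z.1) :=
      hrc.comp continuous_fst
    have c2 : IsClosed {z : ℝ × ((ℝ × ℝ) × (ℝ × ℝ) × (ℝ × ℝ) × (ℝ × ℝ) × (ℝ × ℝ)) |
        0 ≤ dt (r z.1) z.2.1} := by
      apply isClosed_le continuous_const
      unfold dt
      fun_prop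
    exact IsClosed.inter (isClosed_frontier.preimage (by fun_prop))
      (IsClosed.inter (isClosed_frontier.preimage (by fun_prop))
      (IsClosed.inter c2
      (IsClosed.inter (hKcl.preimage (by fun_prop))
      (IsClosed.inter (hKcl.preimage (by fun_prop))
      (IsClosed.inter (hKcl.preimage (by fun_prop))
      (IsClosed.inter (hKcl.preimage (by fun_prop))
      (IsClosed.inter (isClosed_eq (by fun_prop) (by fun_prop))
      (isClosed_eq (by fun_prop) (by fun_prop)))))))))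
  have hRZ : ∀ x y, (x, y) ∈ R → y ∈ Z := by
    rintro x ⟨w, a, b, c, d⟩ ⟨h1, -, -, h2, h3, h4, h5, -, -⟩
    exact ⟨hDcl.frontier_subset h1, h2, h3, h4, h5⟩
  have hexR : ∀ θ, ∃ y, (θ, y) ∈ R := by
    intro θ
    obtain ⟨w, h1, h2, h3⟩ := hex θ
    obtain ⟨a, ha, b, hb, hab⟩ := hDcl.frontier_subset h1
    obtain ⟨c, hc', d, hd, hcd⟩ := hDcl.frontier_subset h2
    exact ⟨(w, a, b, c, d), h1, h2, h3, ha, hb, hc', hd, hab, hcd⟩
  have huR : ∀ θ y y', (θ, y) ∈ R → (θ, y') ∈ R → y = y' := by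
    rintro θ ⟨w, a, b, c, d⟩ ⟨w', a', b', c', d'⟩ ⟨h1, h2, h3, ha, hb, hc', hd, hab, hcd⟩
      ⟨h1', h2', h3', ha', hb', hc'', hd', hab', hcd'⟩
    have hw : w = w' := uniq_w D hDs hDcl hneg h0 (r θ) w w' (hrD θ) h1 h2 h1' h2' h3 h3'
    subst hw
    dsimp only at h1 h2 ha hb hc' hd hab hcd ha' hb' hc'' hd' hab' hcd'
    have e1 : a = a' := uniq K hc a b a' b' ha hb ha' hb' (by rw [hab, hab']) (by rw [hab]; exact h1)
    have e2 : c = c' := uniq K hc c d c' d' hc' hd hc'' hd' (by rw [hcd, hcd'])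
      (by rw [hcd]; exact h2)
    subst e1 e2
    have e3 : b = b' := by
      have : a - b = a - b' := by rw [hab, hab']
      exact sub_right_injective this
    have e4 : d = d' := by
      have : c - d = c - d' := by rw [hcd, hcd']
      exact sub_right_injective this
    subst e3 e4
    rfl
  choose F hF using hexR
  have hFc : Continuous F :=
    cont_of_unique Z hZc R hRcl hRZ F hF (fun x y hxy => huR x y (F x) hxy (hF x))
  -- the function with a zero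
  set H : ℝ → ℝ := fun θ => dt (r θ) ((F θ).2.2.2.2 - (F θ).2.2.1) with hH
  have hHc : Continuous H := by
    rw [hH]
    unfold dt
    fun_prop
  have hFpi : ∀ θ, F (θ + Real.pi) = (-(F θ).1, (F θ).2.2.1, (F θ).2.1, (F θ).2.2.2.2,
      (F θ).2.2.2.1) := by
    intro θ
    apply huR (θ + Real.pi) _ _ (hF _)
    obtain ⟨h1, h2, h3, ha, hb, hc', hd, hab, hcd⟩ := hF θ
    dsimp only at h1 h2 h3 ha hb hc' hd hab hcd
    refine ⟨frontier_neg_mem K _ h1, ?_, ?_, hb, ha, hd, hc', ?_, ?_⟩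
    · dsimp only
      rw [hrpi]
      have : -(F θ).1 - -r θ = -((F θ).1 - r θ) := by abel
      rw [this]
      exact frontier_neg_mem K _ h2
    · dsimp only
      rw [hrpi]
      have : dt (-r θ) (-(F θ).1) = dt (r θ) (F θ).1 := by
        simp only [dt, Prod.fst_neg, Prod.snd_neg]; ring
      rw [this]
      exact h3
    · dsimp only
      rw [← hab]; abel
    · dsimp only
      rw [hrpi]
      have : -(F θ).1 - -r θ = -((F θ).1 - r θ) := by abel
      rw [this, ← hcd]; abel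
  have hHpi : ∀ θ, H (θ + Real.pi) = -H θ := by
    intro θ
    simp only [hH]
    rw [hFpi, hrpi]
    obtain ⟨h1, h2, h3, ha, hb, hc', hd, hab, hcd⟩ := hF θ
    dsimp only at hab hcd ⊢
    have e1 : (F θ).2.2.2.1 - (F θ).2.1 = ((F θ).2.2.2.2 - (F θ).2.2.1) - r θ := by
      have t1 : (F θ).2.2.2.1 = (F θ).1 - r θ + (F θ).2.2.2.2 := by rw [← hcd]; abel
      have t2 : (F θ).2.1 = (F θ).1 + (F θ).2.2.1 := by rw [← hab]; abel
      rw [t1, t2]; abel
    rw [e1]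
    simp only [dt, Prod.fst_neg, Prod.snd_neg, Prod.fst_sub, Prod.snd_sub]
    ring
  obtain ⟨θ, hθ⟩ : ∃ θ, H θ = 0 := by
    have h1 : H (0 + Real.pi) = -H 0 := hHpi 0
    rw [zero_add] at h1
    have h2 := mem_range_of_exists_le_of_exists_ge (c := (0 : ℝ)) hHc
      (by
        rcases le_total (H 0) 0 with h | h
        · exact ⟨0, h⟩
        · exact ⟨Real.pi, by rw [h1]; linarith⟩)
      (by
        rcases le_total (H 0) 0 with h | h
        · exact ⟨Real.pi, by rw [h1]; linarith⟩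
        · exact ⟨0, h⟩)
    exact h2
  obtain ⟨h1, h2, h3, ha, hb, hc', hd, hab, hcd⟩ := hF θ
  dsimp only at h1 h2 h3 ha hb hc' hd hab hcd
  have he0 : r θ ≠ 0 := by
    intro h
    have := hrD θ
    rw [h] at this
    exact this.2 h0
  obtain ⟨α, hα⟩ := exists_smul (r θ) ((F θ).2.2.2.2 - (F θ).2.2.1) he0 hθ
  obtain ⟨x0, hx0, y0, hy0, hxy0⟩ := hDcl.frontier_subset (hrD θ)
  exact ⟨r θ, (F θ).1, x0, y0, (F θ).2.1, (F θ).2.2.1, (F θ).2.2.2.1, (F θ).2.2.2.2, α, hx0, hy0,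
    ha, hb, hc', hd, hxy0, hab, hcd, hrD θ, h1, h2,
    height_pos D hDs hDcl hneg h0 _ _ (hrD θ) h1 h2 h3, hα⟩

end H78Dol
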